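import Mathlib
import Pool.Agent.H91.SkewHerm

set_option autoImplicit false

namespace Pool.Agent.Results.MP_981724_an.NoPlane

theorem result :
    ¬ ∀ (X : Type) [NormedAddCommGroup X] [NormedSpace ℝ X] [CompleteSpace X] (T : X →L[ℝ] X),
      T ≠ 0 →
      (∀ (x : X) (φ : X →L[ℝ] ℝ), ‖x‖ = 1 → ‖φ‖ = 1 → φ x = 1 → φ (T x) = 0) →
      Nonempty (EuclideanSpace ℝ (Fin 2) →ₗᵢ[ℝ] X) := by
  intro h
  obtain ⟨J⟩ := h _ Pool.Agent.H91.SkewHerm.D Pool.Agent.H91.SkewHerm.D_ne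
    Pool.Agent.H91.SkewHerm.skew
  apply Pool.Agent.H91.SkewHerm.no_plane (J (EuclideanSpace.single 0 1))
    (J (EuclideanSpace.single 1 1))
  intro a b
  rw [← map_smul, ← map_smul, ← map_add, J.norm_map, EuclideanSpace.norm_sq_eq]
  simp [Fin.sum_univ_two]

end Pool.Agent.Results.MP_981724_an.NoPlane
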